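import Pool.Agent.P8H28.AD.Vec2

/-!
# The conjugates of the Hodge classes on all tensor powers are decided by the fourth tensor power

Let `Y` be a smooth projective variety over `ℂ`, `σ` an automorphism of `ℂ` and `Y_σ` the conjugate
variety. Let `V = H^w(Y, ℚ)` and `V' = H^w(Y_σ, ℚ)`, with polarisations `ψ`, `ψ'` (given by an ample
class and its conjugate), and with bases indexed by the same set `ι`. Let `K = ℂ` (de Rham part) or
`K = ℚ_ℓ` (`ℓ`-adic part) and let `f` be the matrix of the comparison `V ⊗ K → V' ⊗ K`: the
conjugation maps the class `v` of `V` to the class `f v`. (The conjugation of the algebraic de Rham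
classes is `σ`-semilinear; `f` is the linear map with the same values on `V`.) The inverse of `f`
is `g`. It is a similitude: `fᵀ ψ' f = c ψ`.

The conjecture on absolute Hodge classes predicts that `f` maps Hodge classes to Hodge classes, on all
tensor powers of `V`; in particular it maps them into the `K`-span of the Hodge classes.

**Theorem.** Suppose that `f` maps

* the endomorphisms of the Hodge structure `V` (classes of degree `2 w` on `Y²`) into the `K`-span of
  the endomorphisms of the Hodge structure `V'`, and
* the endomorphisms of the Hodge structure `Sym² V`, if `w` is odd, or `⋀² V`, if `w` is even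
  (classes of degree `4 w` on `Y⁴`, contained in `V^{⊗ 4}`) into the `K`-span of the endomorphisms of
  the Hodge structure `V' ⊗ V'`.

Suppose that the centre of the algebra of the endomorphisms of the Hodge structure `V` consists of
self-adjoint elements (no factors of type IV), or that it is as large as possible (`LargeCentre`). Then
`f` maps the Hodge classes in **all** tensor powers `V^{⊗ n}` (classes of degree `n w` on `Y^n`) into the
`K`-span of the Hodge classes in `V'^{⊗ n}`; so the conjugates of all these Hodge classes are of
Hodge type `(n w / 2, n w / 2)` and are combinations of Hodge classes.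

No theorem is assumed: it is a statement about polarised Hodge structures, proved from the
definitions.

The proof. Let `𝔤` be the Lie algebra over `ℚ` of the infinitesimal similitudes of `ψ` that commute with
the Hodge endomorphisms of `V` and of all its tensor powers, and `𝔥` the larger one in which this is
required only for `V` and for the symmetric or exterior square. The map `y ↦ y ψ⁻¹` identifies the
infinitesimal isometries with the symmetric (alternating) tensors with two indices. So the isometries in
`𝔤` give a sub-Hodge structure of the symmetric (exterior) square; by the polarisation it is the image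
of a projection that is an endomorphism of the Hodge structure, so it commutes with `𝔥`. Therefore `𝔤` is
an **ideal** of `𝔥`. The trace form is nondegenerate on `𝔤` by the Hodge-Riemann relations:
`tr (z · C⁻¹ z C) < 0` for the Weil operator `C`. So every `x` in `𝔥` is the sum of an element of `𝔤`
and an element `z` that commutes with `𝔤`; `z` is an endomorphism of the Hodge structure `V`,
contained in the centre, and so in `𝔤`. Hence `𝔤 = 𝔥`. Now let `𝔤'` be the Lie algebra of `V'`. By the
assumption `f⁻¹ 𝔤' f` is contained in `𝔥 ⊗ K = 𝔤 ⊗ K`. A Hodge class `u` in `V^{⊗ n}` is an eigenvector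
of `𝔤`, with half of the multiplicator (consider the endomorphism `v ↦ ψ(v, u) u`, and
`ψ(u, u) ≠ 0`). So `f u` is an eigenvector of `𝔤'`, and it is a combination of rational eigenvectors;
these are Hodge classes, since the operator `N'` of the Hodge structure `V'` is in `𝔤' ⊗ ℂ`.
-/

namespace Pool.Agent.Results.MP_e2e4f5_ag.FourthTensorPower

open Pool.Agent.W528.ZC Pool.Agent.P8H28.QF Pool.Agent.P8H28.AD

/-- **The fourth tensor power decides.** -/
theorem result {ι : Type} [Fintype ι] [DecidableEq ι] (w : ℤ) (ψ ψ' : Matrix ι ι ℚ)
    (N N' : Matrix ι ι ℂ) (hV : IsPolarised w ψ N) (hV' : IsPolarised w ψ' N')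
    (centre : SelfAdjointCentre ψ N ∨ LargeCentre ψ N)
    {K : Type} [Field K] [Algebra ℚ K] (f g : Matrix ι ι K) (hfg : f * g = 1)
    (c : K) (hc : c ≠ 0) (hf : f.transpose * mapQ K ψ' * f = c • mapQ K ψ)
    (endos : ∀ e, IsHodgeEnd N e → f * mapQ K e * g ∈
      Submodule.span K (mapQ K '' {e' | IsHodgeEnd N' e'}))
    (square : ∀ M, OnSquare (-(-1) ^ w) M → IsHodgeTens 2 N M →
      tens 2 f * mapQ K M * tens 2 g ∈ Submodule.span K (mapQ K '' {M' | IsHodgeTens 2 N' M'}))
    (n : ℕ) (u : (Fin n → ι) → ℚ) (hu : IsHodgeClass n w N u) :
    (tens n f).mulVec (ofQ K u) ∈ Submodule.span K (ofQ K '' {u' | IsHodgeClass n w N' u'}) :=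
  Pool.Agent.P8H28.AD.final hV hV' centre hfg hc hf endos square n u hu

end Pool.Agent.Results.MP_e2e4f5_ag.FourthTensorPower
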