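import Pool.Agent.P8H28.AO.Fin

/-!
# The effective one percent law for absolutely Hodge classes

Let `X` be a smooth projective complex variety, let `b` be the sum of its Betti numbers, and let `D` be
any family of conjugates `X ↦ H(X^σ, ℚ)` of the theory `X ↦ H(X, ℚ)`, with any family of comparison
isomorphisms for each of them (given by de Rham cohomology or by `ℓ`-adic cohomology). Let `h n` and
`a n` be the numbers of linearly independent Hodge classes and absolutely Hodge classes on
`X ^ (n + 1)`, and let `Sparse a h N b` be the statement

* `(L - 3 L (L N + 3) b ^ (L N + 5) log (n + 2) / n) a n ≤ h n` for ALL `L ≥ 1` and `n ≥ 1`, and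
  `log (n + 1) a n ≤ 56 N log (2 b) h n` for ALL `n`.

Theorem.

1. For every `κ ≥ 0` one of the following is true.
   * For each conjugate there is a rational polynomial `μ` (not zero), such that each Hodge class on
     `X ^ (κ + 1)` is mapped by each comparison isomorphism of this conjugate to a linear combination
     of Hodge classes with coefficients in the number field which is generated by the roots of `μ` in
     the field of coefficients of the comparison isomorphism (`ℂ` or `ℚ_ℓ`).
   * `Sparse a h (κ + 1) b`.
2. Let `N` be the exponent of the starting results and of OneThirdOnOnePower: `max(4, t)`,
   `max(4, t ^ 2 / 4)` or `max(4, (d t) ^ t)`, where `t` is the transcendental Betti number of `X`,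
   `d = dim X`, and the centre of the algebra of the endomorphisms of the Hodge structure `H(X)` is
   self-adjoint, the Hodge group is semisimple, or in general. Let `⟨X⟩` be the class of the varieties
   `Y` whose cohomology is a direct summand of cohomology of powers of `X` by absolutely Hodge
   correspondences. Then one of the following is true.
   * There is a number `m` with `h n ≤ m a n` for all `n`, and for each conjugate there is a rational
     polynomial `μ` (not zero), such that each Hodge class on each `Y` in `⟨X⟩` is mapped by each
     comparison isomorphism of this conjugate to a linear combination of Hodge classes with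
     coefficients in the number field generated by the roots of `μ`.
   * `Sparse a h N b`.

So if one percent of the Hodge classes on ONE power `X ^ (n + 1)` with `log (n + 1) > 5600 N log (2 b)` is
absolutely Hodge, then the first alternative of (2) is true for all powers of `X` and all `Y` in `⟨X⟩`;
and if the proportion `a n / h n` is not bounded from below by a positive number, then it is smaller than
`56 N log (2 b) / log (n + 1)` for EVERY `n`.

The starting result NumberFieldOrZero (problem MP_c77f96_ag) is: number fields which depend on the
comparison isomorphism for all powers of `X`, or `a n / h n → 0`.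

The proof. A Hodge class `q` on `X ^ (κ + 1)` satisfies no polynomial relation over the absolutely Hodge
classes, or it does. In the first case the operators given by absolutely Hodge classes and the external
powers `1, q, ..., q ^ (L - 1)` give a chain of `L` steps on `X ^ ((L - 1) (κ + 1) + 1)`, each of them
gives an idempotent, and the part of the absolutely Hodge classes cut out by it contributes to `h n` at
least `a n`, up to an explicit error. In the second case the coefficients of the images of `q` under all
comparison isomorphisms with one conjugate generate a finite-dimensional algebra (relations with
coefficients which do not depend on the comparison isomorphism), the image is fixed by the Hodge group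
of the conjugate, as this group is connected, and the system of the absolutely Hodge classes and `q` is
of finite index; if this is so for all Hodge classes on `X ^ N`, the bounded power theorem
(`Pool/Agent/N996/FP`) shows that the system generated by them contains all Hodge classes on all powers.
-/

open CategoryTheory AlgebraicGeometry

universe u

namespace Pool.Agent.Results.MP_e2e4f5_ag.OnePercentLaw

open Pool.Agent.H914 Pool.Agent.Y121.AHS Pool.Agent.P8H28.AO
open Pool.Agent.Y133.Half (pw)

variable {k : Type u} [Field k] {𝒱 : VarClass k} {ops : CycleOps 𝒱}

/-- **The effective one percent law for absolutely Hodge classes.** `pw X n` is the product of `n + 1`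
copies of `X`; `b` is the sum of the Betti numbers of `X`. -/
theorem result (T : HodgeTheory ops) (D : Full.Conjugates T) (X : 𝒱.Obj) (b : ℕ)
    (hb : b = dimSpan T.W X fun _ _ => True) (h a : ℕ → ℕ)
    (hh : ∀ n, h n = dimSpan T.W _ (IsHodge T (pw X n)))
    (ha : ∀ n, a n = dimSpan T.W _ (Full.IsAbsHodge D (pw X n))) :
    (∀ κ, (∀ i, ∃ μ : Polynomial ℤ, μ ≠ 0 ∧ ∀ c j, OverRoots D i c μ (pw X κ) j) ∨
      Sparse a h (κ + 1) b) ∧
    ∀ t N, b = dimSpan T.W X (IsHodge T X) + t →
      IsExp (T.W.tr X) (IsType T.pq (X := X)) X.dim t N →
      (∀ n, FromPowersAbs D X (pw X n)) ∧
      ((∃ m, ∀ n, h n ≤ m * a n) ∧ (∀ i, ∃ μ : Polynomial ℤ, μ ≠ 0 ∧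
        ∀ c Y, FromPowersAbs D X Y → ∀ j, OverRoots D i c μ Y j) ∨ Sparse a h N b) :=
  main T D X b hb h a hh ha

end Pool.Agent.Results.MP_e2e4f5_ag.OnePercentLaw
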