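import Pool.Agent.P8H28.AT.Conv

/-!
# One third of the Hodge classes on one explicit power decides the absolute Hodge conjecture

Let `X` be a smooth projective complex variety of dimension `d`, let `b` be the sum of its Betti numbers
and `t` its transcendental Betti number (`b` minus the number of linearly independent Hodge classes of
`X`). Let

* `N = max(4, t)` if the centre of the algebra of the endomorphisms of the Hodge structure `H(X)`
  consists of self-adjoint endomorphisms for a polarisation (it is a product of totally real fields),
* `N = max(4, t ^ 2 / 4)` if the Hodge group of `X` is semisimple,
* `N = max(4, (d t) ^ t)` in general,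

and `C = 8 (N + 3) b ^ (N + 5)`. Let `D` be any family of conjugates `X ↦ H(X^σ, ℚ)` of the theory
`X ↦ H(X, ℚ)`, with any family of comparison isomorphisms for each of them (given by de Rham cohomology
or by `ℓ`-adic cohomology). A Hodge class is absolutely Hodge (for `D`) if for every conjugate in the
family it corresponds to one Hodge class of the conjugate variety under all comparison isomorphisms of
the family. Let `⟨X⟩` be the class of the varieties `Y` whose cohomology is a direct summand of
cohomology of powers of `X` by absolutely Hodge correspondences; all powers of `X` belong to it.

Theorem.

1. One cohomology group decides: if the Hodge classes in `H^(2 j)(X ^ N)`, `j = [N d / 2]`, are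
   absolutely Hodge, then all Hodge classes on all varieties in `⟨X⟩` are absolutely Hodge.
2. All Hodge classes on all varieties in `⟨X⟩` are absolutely Hodge, or for EVERY `n ≥ 1`

     `h n ≥ (2 - C log (n + 2) / n) a n`,

   where `h n` and `a n` are the numbers of linearly independent Hodge classes and absolutely Hodge
   classes on `X ^ (n + 1)`.
3. Let the family contain `ℓ`-adic comparison isomorphisms for all primes `ℓ` for each of its
   conjugates. Then for all Hodge classes `c` on all varieties in `⟨X⟩` the image of `c` under each
   comparison isomorphism of each conjugate is one of two Hodge classes `w 1` and `w (-1)`, which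
   depend on `c` and on the conjugate only, and the choice between the two depends on the conjugate
   and on the comparison isomorphism, but not on `c` and on the variety in `⟨X⟩`; or for EVERY `n ≥ 1`

     `h n ≥ (3 - C log (n + 2) / n) a n`.

The family may consist of one conjugate and one comparison isomorphism (then (1) and (2) treat the two
parts of the absolute Hodge conjecture separately, and each automorphism `σ` and each prime `ℓ`
separately), or of all of them; (3) for the family of all `σ` and all comparison isomorphisms says: if on
one power `X ^ (n + 1)`, `C log (n + 2) < ε n`, a proportion of more than `1 / (3 - ε)` of the Hodge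
classes is absolutely Hodge, then the conjugates of all Hodge classes on all varieties in `⟨X⟩`, for de
Rham cohomology and for `ℓ`-adic cohomology, are Hodge classes (both parts of the question of the
problem file).

The starting result OneThirdLaw is about the limit of `a n / h n` and about the powers of `X`.

The proof. Let `S` and `T` be the systems of the absolutely Hodge classes and of all Hodge classes.

(a) By the bounded power theorem (`Pool/Agent/N996/FP`, the starting result BoundedPower on the
Hodge conjecture) every system of classes on the powers of `X` which is stable under products,
coordinate maps and projections and contains the Hodge classes on `X ^ N` contains all Hodge classes on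
the powers; hard Lefschetz gives (1).

(b) Let `P = X ^ N` or `X ^ (N + 1)` and `S(P) ≠ T(P)`. The spaces `0 < S(P) < T(P)` are stable under the
operators given by absolutely Hodge classes on `P × P`. Each step of a chain of stable subspaces gives an
idempotent `g` of this kind, and the part of `S(P × Z)` cut out by `g` contributes to the Hodge classes
on `Z`. For `Z = P₀ × Y × Y`, `Y = X ^ (l + 1)`, the contribution is at least
`(rank(g) b ^ (m + 1) - η) s(Y × Y)`, where `P₀ = X ^ (m + 1)`, `s` is the number of absolutely Hodge
classes, and `η` is explicitly bounded by the logarithmic convexity of the numbers `s(Y × Y)` and their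
growth. Two steps give (2).

(c) One gets three units, and not two, if the idempotent of the second step has rank at least two, or if
there are three steps. Otherwise the idempotent is the projector to a line spanned by a Hodge class `u`,
and `T(P) = S(P) + S(P × P) u`. The pairing on `S` being perfect, `u ⊗ u` belongs to `S(P × P)`, and the
classes `z` such that `u ⊗ z` is absolutely Hodge form, together with `S`, a system which is stable under
products; by (a) it contains all Hodge classes on all powers. The number of such classes `z` on `Y × Y` is at
most `s(Y × Y)`, by the inequality for the ranks. So at least one half of the Hodge classes on the even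
powers is absolutely Hodge, and the starting result OneThirdLaw gives the first alternative of (3) for
the powers of `X`; it is carried over to all varieties in `⟨X⟩`.
-/

open CategoryTheory AlgebraicGeometry

universe u

namespace Pool.Agent.Results.MP_e2e4f5_ag.OneThirdOnOnePower

open Pool.Agent.H914 Pool.Agent.Y121.AHS Pool.Agent.P8H28.AT
open Pool.Agent.Y133.Half (pw)

variable {k : Type u} [Field k] {𝒱 : VarClass k} {ops : CycleOps 𝒱}

/-- **One third of the Hodge classes on one explicit power decides the absolute Hodge conjecture.**
`pw X n` is the product of `n + 1` copies of `X`; `b` is the sum of the Betti numbers of `X`, and `t` is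
its transcendental Betti number. -/
theorem result (T : HodgeTheory ops) (D : Full.Conjugates T) (X : 𝒱.Obj) (b t N C : ℕ)
    (hb : b = dimSpan T.W X fun _ _ => True) (ht : b = dimSpan T.W X (IsHodge T X) + t)
    (hN : IsExp (T.W.tr X) T.rat (IsType T.pq (X := X)) X.dim t N)
    (hC : C = 8 * (N + 3) * b ^ (N + 5)) (h a : ℕ → ℕ)
    (hh : ∀ n, h n = dimSpan T.W _ (IsHodge T (pw X n)))
    (ha : ∀ n, a n = dimSpan T.W _ (Full.IsAbsHodge D (pw X n))) :
    (∀ n, FromPowersAbs D X (pw X n)) ∧
    (AbsHodgeIn D (pw X (N - 1)) (N * X.dim / 2) →
      ∀ Y, FromPowersAbs D X Y → ∀ j, AbsHodgeIn D Y j) ∧
    ((∀ Y, FromPowersAbs D X Y → ∀ j, AbsHodgeIn D Y j) ∨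
      ∀ n : ℕ, 0 < n → (2 - C * Real.log (n + 2) / n) * a n ≤ h n) ∧
    (AllPrimes D →
      (∀ i, ∃ ε : D.J i → ℤˣ, ∀ Y, FromPowersAbs D X Y → ∀ j, UpToSign D i ε Y j) ∨
        ∀ n : ℕ, 0 < n → (3 - C * Real.log (n + 2) / n) * a n ≤ h n) :=
  fin T D X b t N C hb ht hN hC h a hh ha

end Pool.Agent.Results.MP_e2e4f5_ag.OneThirdOnOnePower
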